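import Pool.Agent.J6H5.C26.K9

/-! Kernel computation. -/

set_option autoImplicit false
set_option maxRecDepth 100000
set_option maxHeartbeats 4000000

namespace Pool.Agent.J6H5.C26

theorem kk12 : chk 3902 = true ∧ chk 3959 = true ∧ chk 3962 = true ∧ chk 3963 = true ∧ chk 3966 = true ∧ chk 4094 = true ∧ chk 6108 = true ∧ chk 6109 = true ∧ chk 6654 = true :=
  ⟨by decide +kernel, by decide +kernel, by decide +kernel, by decide +kernel, by decide +kernel, by decide +kernel, by decide +kernel, by decide +kernel, by decide +kernel⟩

end Pool.Agent.J6H5.C26
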