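import Pool.Agent.J6H5.C26.K4

/-! Kernel computation. -/

set_option autoImplicit false
set_option maxRecDepth 100000
set_option maxHeartbeats 4000000

namespace Pool.Agent.J6H5.C26

theorem kk7 : chk 766 = true ∧ chk 920 = true ∧ chk 921 = true ∧ chk 922 = true ∧ chk 923 = true ∧ chk 926 = true ∧ chk 954 = true ∧ chk 955 = true ∧ chk 956 = true :=
  ⟨by decide +kernel, by decide +kernel, by decide +kernel, by decide +kernel, by decide +kernel, by decide +kernel, by decide +kernel, by decide +kernel, by decide +kernel⟩

end Pool.Agent.J6H5.C26
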