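import Pool.Agent.J6H5.C26.Tab
import Pool.Agent.N443.Core.Run3

/-! Functions computed by the kernel. -/

set_option autoImplicit false
set_option maxRecDepth 100000

namespace Pool.Agent.J6H5.C26

open Pool.Agent.Y435.T7 (st cnd al bt get d2 swp as1 as2 as3 as4)
open Pool.Agent.N443 (osum run3 tot3 pcd Stp Grp)

noncomputable section

def ON640 : ℕ := Nat.sub (Nat.pow 2 640) 1
def ON10240 : ℕ := Nat.sub (Nat.pow 2 10240) 1
def ON40960 : ℕ := Nat.sub (Nat.pow 2 40960) 1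
def ON163840 : ℕ := Nat.sub (Nat.pow 2 163840) 1
def ON655360 : ℕ := Nat.sub (Nat.pow 2 655360) 1
/-- `enc 640 6 (2 ^ 40 - 1)` -/
def MK64 : ℕ := d2 20480 (d2 10240 (d2 5120 (d2 2560 (d2 1280 (d2 640 (Nat.sub (Nat.pow 2 40) 1))))))
/-- `enc 640 6 1` -/
def OS64 : ℕ := d2 20480 (d2 10240 (d2 5120 (d2 2560 (d2 1280 (d2 640 1)))))
/-- `enc 40 4 1` -/
def ON16 : ℕ := d2 320 (d2 160 (d2 80 (d2 40 1)))

def ty (m : ℕ) : ℕ := Nat.land (Nat.shiftRight TYn (Nat.mul 4 m)) 15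
/-- number of columns -/
def NK (m : ℕ) : ℕ := Nat.land (Nat.shiftRight NKn (Nat.mul 8 m)) 255
def sl (m : ℕ) : ℕ := Nat.land (Nat.shiftRight SLn (Nat.mul 48 m)) 281474976710655
/-- the table of a type -/
def FB (t : ℕ) : ℕ := as4 163840 (fun j => get DT (Nat.add t (Nat.mul 8 j))) 0
def sw1 (c x : ℕ) : ℕ := cnd (Nat.beq c 0) x (swp 40 16 (Nat.land c 15) (Nat.shiftRight c 4) x)
/-- the table of a mask -/
def PF (m : ℕ) : ℕ := st (fun s => sw1 (Nat.land (Nat.shiftRight s 40) 255) (sw1 (Nat.land (Nat.shiftRight s 32) 255)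
  (sw1 (Nat.land (Nat.shiftRight s 24) 255) (sw1 (Nat.land (Nat.shiftRight s 16) 255) (sw1 (Nat.land (Nat.shiftRight s 8) 255)
    (sw1 (Nat.land s 255) (st FB (ty m)))))))) (sl m)
/-- four blocks of the table of a mask -/
def QB (m q : ℕ) : ℕ := Nat.land (Nat.shiftRight (st PF m) (Nat.mul 655360 q)) ON655360
/-- block `j` of the table of a mask -/
def XB (m j : ℕ) : ℕ := Nat.land (Nat.shiftRight (st (fun q => QB m q) (Nat.div j 4)) (Nat.mul 163840 (Nat.mod j 4))) ON163840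
def XBs (m j : ℕ) : ℕ := st (fun m => st (fun j => XB m j) j) m

/-- exchange of the index bits 0, 1, 2, 3 and 4, 5, 6, 7 -/
def tr (x : ℕ) : ℕ := swp 40 12 3 7 (swp 40 12 2 6 (swp 40 12 1 5 (swp 40 12 0 4 x)))
def XTs (m j : ℕ) : ℕ := st (fun m => st (fun j => tr (XB m j)) j) m
/-- sixteen entries of sixteen columns -/
def ka (a q h : ℕ) : ℕ := Nat.land (Nat.shiftRight a (Nat.mul 10240 (Nat.add h (Nat.mul 4 q)))) ON10240
/-- sixteen entries of column `k` -/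
def kx (a k h : ℕ) : ℕ := Nat.land (Nat.shiftRight (st (fun q => ka a q h) (Nat.div k 16)) (Nat.mul 640 (Nat.mod k 16))) ON640
/-- sixteen columns -/
def kb (b q : ℕ) : ℕ := Nat.land (Nat.shiftRight b (Nat.mul 40960 q)) ON40960
/-- column `k` -/
def ky (b k : ℕ) : ℕ := Nat.land (Nat.shiftRight (st (fun q => kb b q) (Nat.div k 16)) (Nat.mul 40 (Nat.mod k 16))) MK64
/-- entry `p` of column `k` -/
def kd (b k p : ℕ) : ℕ := Nat.land (Nat.shiftRight (st (fun q => kb b q) (Nat.div k 16)) (Nat.mul 40 (Nat.add (Nat.mod k 16) (Nat.mul 16 p)))) 1099511627775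
/-- all values for a pair of blocks, the first transposed -/
def OP (K a b h : ℕ) : ℕ := Nat.add (osum (fun k => Nat.mul (kx a k h) (ky b k)) K)
  (Nat.add (Nat.mul (kx a K h) OS64) (Nat.mul ON16 (ky b K)))
/-- values of a record and a block, transposed -/
def OR (K a z p h : ℕ) : ℕ := Nat.add (osum (fun k => Nat.mul (kx z k h) (kd a k p)) K)
  (Nat.add (kx z K h) (Nat.mul ON16 (kd a K p)))

/-- block of the first frame; `s` is the bit of the first four vertices, `e`, `f` the links of the last two -/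
def BI (s e f m' : ℕ) : ℕ := st (fun m => st (fun e => st (fun f => as2 40960 (fun h => OP (NK m) (XTs m e) (XBs m f) h) 0) f) e) (Nat.add m' (Nat.mul 16 s))
/-- block of the second frame -/
def BR (s e f p m' : ℕ) : ℕ := st (fun m => st (fun f => st (fun p => as2 40960 (fun h => Nat.mul (OR (NK m) (XBs m f) (XTs m m') p h) OS64) 0) p) f) (Nat.add e (Nat.mul 16 s))
def b16 (fl c : ℕ) : ℕ := as4 163840 (fun m' => Nat.add (BI (bt 0 c) (Nat.land (Nat.shiftRight c 1) 15) (Nat.land (Nat.shiftRight c 5) 15) m')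
  (cnd (Nat.beq fl 0) 0 (BR (bt 0 c) (Nat.land (Nat.shiftRight c 1) 15) (Nat.land (Nat.shiftRight c 5) 15)
  (Nat.land (Nat.shiftRight c 9) 63) m'))) 0

def s0 : Stp := (0, [10, 1, 9, 5, 12, 3, 11, 7, 14, 2, 0, 6, 4, 13, 8],
  [(16, 0, 12), (16, 2, 14), (16, 5, 7), (16, 10, 15), (16, 16, 9), (17, 0, 0), (18, 18, 5)])
def s1 : Stp := (0, [5, 1, 10, 9, 12, 0, 7, 6, 8, 3, 2, 11, 4, 14, 13],
  [(16, 1, 12), (16, 2, 13), (16, 4, 7), (16, 11, 15), (16, 16, 8), (17, 17, 4), (18, 0, 0)])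
def s2 : Stp := (0, [7, 0, 6, 5, 8, 3, 11, 10, 14, 2, 1, 9, 4, 13, 12],
  [(16, 0, 5), (16, 2, 14), (16, 6, 13), (16, 7, 12), (16, 9, 10), (16, 16, 15), (17, 17, 3), (18, 18, 12)])
def g0 : Grp := (19, [s0, s1, s2], [(19, 19, 7)])
def s3 : Stp := (0, [12, 1, 10, 5, 9, 4, 14, 8, 13, 3, 0, 7, 2, 11, 6],
  [(16, 3, 12), (16, 10, 13), (16, 11, 14), (16, 16, 6), (17, 17, 5), (18, 18, 4)])
def s4 : Stp := (0, [1, 9, 10, 5, 12, 2, 3, 0, 4, 11, 6, 7, 13, 14, 8],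
  [(16, 0, 13), (16, 1, 14), (16, 3, 15), (16, 0, 0), (17, 17, 9), (18, 18, 8)])
def s5 : Stp := (0, [4, 1, 3, 0, 2, 12, 14, 8, 13, 10, 5, 7, 9, 11, 6],
  [(16, 2, 6), (16, 3, 12), (16, 4, 10), (16, 5, 11), (16, 7, 15), (16, 16, 2), (17, 17, 14), (18, 18, 13)])
def g1 : Grp := (19, [s3, s4, s5], [(19, 19, 6)])
def s6 : Stp := (1, [11, 2, 9, 6, 13, 3, 10, 7, 14, 1, 0, 5, 4, 12, 8],
  [(16, 0, 12), (16, 0, 4), (16, 1, 5), (16, 1, 11), (16, 1, 9), (16, 2, 14), (16, 2, 6), (16, 3, 7), (16, 8, 10), (16, 8, 15), (16, 16, 1), (17, 0, 0), (18, 18, 3)])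
def s7 : Stp := (1, [2, 1, 3, 0, 4, 9, 11, 6, 13, 10, 5, 7, 12, 14, 8],
  [(16, 2, 11), (16, 4, 13), (16, 5, 14), (16, 7, 15), (16, 0, 0), (17, 17, 2), (18, 18, 10)])
def s8 : Stp := (0, [3, 1, 2, 0, 4, 10, 11, 7, 14, 9, 5, 6, 12, 13, 8],
  [(16, 0, 12), (16, 2, 5), (16, 4, 13), (16, 7, 10), (16, 11, 14), (16, 16, 9), (17, 17, 14), (18, 18, 15)])
def g2 : Grp := (19, [s6, s7, s8], [(19, 19, 11)])
def s9 : Stp := (1, [13, 4, 14, 8, 12, 2, 11, 6, 9, 3, 0, 7, 1, 10, 5],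
  [(16, 7, 12), (16, 8, 13), (16, 9, 14), (16, 16, 2), (17, 17, 1), (18, 18, 0)])
def s10 : Stp := (1, [6, 0, 7, 5, 8, 2, 11, 9, 13, 3, 1, 10, 4, 14, 12],
  [(16, 5, 12), (16, 6, 13), (16, 9, 15), (16, 16, 10), (17, 17, 3), (18, 0, 0)])
def s11 : Stp := (0, [8, 0, 7, 5, 6, 4, 14, 12, 13, 3, 1, 10, 2, 11, 9],
  [(16, 3, 5), (16, 6, 10), (16, 9, 15), (16, 11, 14), (16, 16, 13), (17, 17, 12), (18, 18, 4)])
def g3 : Grp := (19, [s9, s10, s11], [(19, 19, 0)])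
def s12 : Stp := (1, [9, 1, 10, 5, 12, 2, 11, 6, 13, 3, 0, 7, 4, 14, 8],
  [(16, 0, 0), (17, 0, 0), (18, 0, 0), (19, 0, 0)])
def g4 : Grp := (20, [s12], [])
def s13 : Stp := (1, [14, 3, 10, 7, 11, 4, 12, 8, 13, 1, 0, 5, 2, 9, 6],
  [(16, 3, 4), (16, 6, 11), (16, 8, 15), (16, 10, 13), (16, 16, 14), (17, 17, 5), (18, 18, 12), (19, 19, 1)])
def g5 : Grp := (20, [s13], [])
def s14 : Stp := (0, [0, 6, 7, 5, 8, 2, 3, 1, 4, 11, 9, 10, 13, 14, 12],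
  [(16, 0, 6), (16, 1, 14), (16, 3, 9), (16, 5, 12), (16, 16, 10), (17, 17, 15), (18, 18, 8), (19, 19, 13)])
def g6 : Grp := (20, [s14], [])
def GS : List Grp := [g0, g1, g2, g3, g4, g5, g6]

def dd (x : ℕ) : ℕ := d2 20971520 (d2 10485760 (d2 5242880 (d2 2621440 (d2 1310720 (d2 655360 (d2 327680 (d2 163840 (d2 81920 (d2 40960 (d2 20480 (d2 10240 (d2 5120 (d2 2560 (d2 1280 (d2 640 (d2 320 (d2 160 (d2 80 (d2 40 x)))))))))))))))))))
def chk (c : ℕ) : Bool := Nat.beq (Nat.land (Nat.add (tot3 b16 GS c) (dd (Nat.sub 274877906943 cC))) (dd 824633720832)) 0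

end

end Pool.Agent.J6H5.C26
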