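import Pool.Agent.J6H5.C26.Fin

/-! The construction has no pattern; the limit of the largest density. -/

set_option autoImplicit false
set_option maxRecDepth 100000
open Finset Filter Topology

namespace Pool.Agent.J6H5.C26

noncomputable section

open Pool.Agent.W846.F2 (gr gr_free gr_uniform gr_card exists_D qd qd_card cel)
open Pool.Agent.N443.PL (low_num inn mem4)

theorem gr_cliqueFree {n : ℕ} (A : Finset (Fin n)) (D : Finset (Fin n × Fin n)) : CliqueFree (gr A D) := by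
  intro S hS
  by_contra hcon
  push Not at hcon
  exact gr_free A D ⟨S, hS, fun Q hQ => hcon Q (mem_powersetCard.mp hQ).1 (mem_powersetCard.mp hQ).2⟩

/-- the construction does not have the pattern -/
theorem gr_noPattern {n : ℕ} (A : Finset (Fin n)) (D : Finset (Fin n × Fin n)) (S : Finset (Fin n)) :
    ¬ IsPattern (gr A D) S := by
  rintro ⟨hS, x, hx, a, ha, b, hb, hxa, hxb, hab, h⟩
  have h3 : (((S.erase x).erase a).erase b).card = 3 := by
    rw [card_erase_of_mem (mem_erase.mpr ⟨Ne.symm hab, mem_erase.mpr ⟨Ne.symm hxb, hb⟩⟩),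
      card_erase_of_mem (mem_erase.mpr ⟨Ne.symm hxa, ha⟩), card_erase_of_mem hx, hS]
  obtain ⟨c, d, e, hcd, hce, hde, heq⟩ := card_eq_three.mp h3
  have hm : ∀ v, v ∈ ({c, d, e} : Finset (Fin n)) → v ∈ S ∧ v ≠ x ∧ v ≠ a ∧ v ≠ b := by
    intro v hv
    rw [← heq, mem_erase, mem_erase, mem_erase] at hv
    exact ⟨hv.2.2.2, hv.2.2.1, hv.2.1, hv.1⟩
  obtain ⟨c1, c2, c3, c4⟩ := hm c (by simp)
  obtain ⟨d1, d2, d3, d4⟩ := hm d (by simp)
  obtain ⟨e1, e2, e3, e4⟩ := hm e (by simp)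
  have q : ∀ {p q r s : Fin n}, p ∈ S → q ∈ S → r ∈ S → s ∈ S → p ≠ q → p ≠ r → p ≠ s → q ≠ r → q ≠ s → r ≠ s →
      (({p, q, r, s} : Finset (Fin n)) ∈ gr A D ↔ x ∈ ({p, q, r, s} : Finset (Fin n)) ∧
        ¬ (a ∈ ({p, q, r, s} : Finset (Fin n)) ∧ b ∈ ({p, q, r, s} : Finset (Fin n)))) := by
    intro p q r s hp hq hr hs n1 n2 n3 n4 n5 n6
    refine h _ ?_ ?_
    · intro v hv
      simp only [mem_insert, mem_singleton] at hv
      rcases hv with rfl | rfl | rfl | rfl <;> assumption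
    · rw [card_insert_of_notMem (by simp [n1, n2, n3]), card_insert_of_notMem (by simp [n4, n5]),
        card_insert_of_notMem (by simp [n6]), card_singleton]
  have k1 := nm4 A D hab (Ne.symm c3) (Ne.symm d3) (Ne.symm c4) (Ne.symm d4) hcd (fun hh => by
    have := ((q ha hb c1 d1 hab (Ne.symm c3) (Ne.symm d3) (Ne.symm c4) (Ne.symm d4) hcd).mp hh).1
    simp [hxa, hxb, Ne.symm c2, Ne.symm d2] at this)
  have k2 := nm4 A D hab (Ne.symm c3) (Ne.symm e3) (Ne.symm c4) (Ne.symm e4) hce (fun hh => by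
    have := ((q ha hb c1 e1 hab (Ne.symm c3) (Ne.symm e3) (Ne.symm c4) (Ne.symm e4) hce).mp hh).1
    simp [hxa, hxb, Ne.symm c2, Ne.symm e2] at this)
  have k3 := nm4 A D hab (Ne.symm d3) (Ne.symm e3) (Ne.symm d4) (Ne.symm e4) hde (fun hh => by
    have := ((q ha hb d1 e1 hab (Ne.symm d3) (Ne.symm e3) (Ne.symm d4) (Ne.symm e4) hde).mp hh).1
    simp [hxa, hxb, Ne.symm d2, Ne.symm e2] at this)
  have k4 := nm4 A D (Ne.symm c3) (Ne.symm d3) (Ne.symm e3) hcd hce hde (fun hh => by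
    have := ((q ha c1 d1 e1 (Ne.symm c3) (Ne.symm d3) (Ne.symm e3) hcd hce hde).mp hh).1
    simp [hxa, Ne.symm c2, Ne.symm d2, Ne.symm e2] at this)
  have k5 := nm4 A D (Ne.symm c4) (Ne.symm d4) (Ne.symm e4) hcd hce hde (fun hh => by
    have := ((q hb c1 d1 e1 (Ne.symm c4) (Ne.symm d4) (Ne.symm e4) hcd hce hde).mp hh).1
    simp [hxb, Ne.symm c2, Ne.symm d2, Ne.symm e2] at this)
  have k6 := nm4 A D hxa hxb (Ne.symm c2) hab (Ne.symm c3) (Ne.symm c4) (fun hh => by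
    have := ((q hx ha hb c1 hxa hxb (Ne.symm c2) hab (Ne.symm c3) (Ne.symm c4)).mp hh).2
    exact this ⟨by simp, by simp⟩)
  have k7 := ms4 A D hxa (Ne.symm c2) (Ne.symm d2) (Ne.symm c3) (Ne.symm d3) hcd
    ((q hx ha c1 d1 hxa (Ne.symm c2) (Ne.symm d2) (Ne.symm c3) (Ne.symm d3) hcd).mpr ⟨by simp, fun hh => by
      have := hh.2
      simp [Ne.symm hxb, Ne.symm hab, Ne.symm c4, Ne.symm d4] at this⟩)
  have i0 := inn_le A x
  have i1 := inn_le A a
  have i2 := inn_le A b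
  have i3 := inn_le A c
  have i4 := inn_le A d
  have i5 := inn_le A e
  omega

theorem gr_sub {n : ℕ} (A : Finset (Fin n)) (D : Finset (Fin n × Fin n)) : gr A D ⊆ powersetCard 4 univ :=
  fun e he => mem_powersetCard.mpr ⟨subset_univ _, gr_uniform A D e he⟩

theorem gr_zero {n : ℕ} (A : Finset (Fin n)) (D : Finset (Fin n × Fin n)) : patterns (gr A D) = 0 := by
  classical
  unfold patterns
  rw [card_eq_zero]
  ext S
  rw [mem_filter]
  exact ⟨fun h => absurd h.2 (gr_noPattern A D S), fun h => absurd h (by simp)⟩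

/-- dense members of the construction -/
theorem lower (ε : ℝ) (hε : 0 < ε) : ∃ n0 : ℕ, ∀ n : ℕ, n0 ≤ n → ∃ (A : Finset (Fin n)) (D : Finset (Fin n × Fin n)),
    (11 / 16 - ε) * (n.choose 4 : ℝ) ≤ ((gr A D).card : ℝ) := by
  refine ⟨max 5 ⌈14 / ε⌉₊, fun n hn => ?_⟩
  have hn5 : 5 ≤ n := (le_max_left _ _).trans hn
  have hn1 : 14 / ε ≤ (n : ℝ) := (Nat.le_ceil _).trans (by
    exact_mod_cast (le_max_right _ _).trans hn)
  set A : Finset (Fin n) := univ.filter fun x => (x : ℕ) < n / 2 with hA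
  have hc : A.card = n / 2 := by
    rw [hA, Fin.card_filter_val_lt]
    omega
  have hc2 : (Aᶜ).card = n - n / 2 := by
    rw [card_compl, Fintype.card_fin, hc]
  obtain ⟨D, hD⟩ := exists_D A
  have hg : 2 * (A.card.choose 3 * (Aᶜ).card + A.card * (Aᶜ).card.choose 3)
      + A.card.choose 2 * (Aᶜ).card.choose 2 ≤ 2 * (gr A D).card := by
    rw [gr_card]
    have h1 := qd_card A (k := 1) (by norm_num)
    have h2 := qd_card A (k := 2) (by norm_num)
    have h3 := qd_card A (k := 3) (by norm_num)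
    norm_num at h1 h2 h3
    omega
  have h := low_num hn5 hc hc2 hg
  refine ⟨A, D, ?_⟩
  have hch : (n.choose 4 : ℝ) ≤ (n : ℝ) ^ 4 / 24 := by
    have := Nat.choose_le_pow_div (α := ℝ) 4 n
    have e : ((4 : ℕ).factorial : ℝ) = 24 := by norm_num [Nat.factorial]
    rw [e] at this
    exact this
  have hnr : (5 : ℝ) ≤ n := by exact_mod_cast hn5
  rcases le_or_gt (11 / 16 - ε) 0 with hneg | hpos
  · exact (mul_nonpos_of_nonpos_of_nonneg hneg (Nat.cast_nonneg _)).trans (Nat.cast_nonneg _)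
  · refine (mul_le_mul_of_nonneg_left hch hpos.le).trans ?_
    have h4 : (n : ℝ) ^ 4 - 20 * (n : ℝ) ^ 3 ≤ ((n : ℝ) - 5) ^ 4 := by
      nlinarith [sq_nonneg ((n : ℝ)), mul_nonneg (by linarith : (0 : ℝ) ≤ (n : ℝ) - 5)
        (by linarith : (0 : ℝ) ≤ (n : ℝ))]
    rw [div_le_iff₀ hε] at hn1
    have h5 : 14 * (n : ℝ) ^ 3 ≤ ε * (n : ℝ) ^ 4 := by
      have := mul_le_mul_of_nonneg_right hn1 (by positivity : (0 : ℝ) ≤ (n : ℝ) ^ 3)
      nlinarith
    nlinarith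

/-- the largest number of edges of a 4-graph on `n` vertices with property `P` -/
def largest (P : (n : ℕ) → Finset (Finset (Fin n)) → Prop) (n : ℕ) : ℕ :=
  sSup {m : ℕ | ∃ H : Finset (Finset (Fin n)), H ⊆ powersetCard 4 univ ∧ P n H ∧ H.card = m}

theorem bdd (P : (n : ℕ) → Finset (Finset (Fin n)) → Prop) (n : ℕ) :
    BddAbove {m : ℕ | ∃ H : Finset (Finset (Fin n)), H ⊆ powersetCard 4 univ ∧ P n H ∧ H.card = m} := by
  refine ⟨n.choose 4, ?_⟩
  rintro m ⟨H, hH, _, rfl⟩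
  have := card_le_card hH
  rw [card_powersetCard, card_univ, Fintype.card_fin] at this
  exact this

theorem ch4 {n : ℕ} (hn : 4 ≤ n) : (n : ℝ) ^ 4 * (1 - 12 / n) ≤ 24 * (n.choose 4 : ℝ) := by
  have h1 := Nat.pow_le_choose (α := ℝ) 4 n
  have e : ((4 : ℕ).factorial : ℝ) = 24 := by norm_num [Nat.factorial]
  rw [div_le_iff₀ (by positivity), e] at h1
  have hn0 : (0 : ℝ) < n := by exact_mod_cast (by omega : 0 < n)
  have h2 : ((n + 1 - 4 : ℕ) : ℝ) = (n : ℝ) - 3 := by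
    rw [Nat.cast_sub (by omega)]
    push_cast
    ring
  rw [h2] at h1
  have h4 : (4 : ℝ) ≤ n := by exact_mod_cast hn
  have e2 : (n : ℝ) ^ 4 * (1 - 12 / n) = (n : ℝ) ^ 4 - 12 * (n : ℝ) ^ 3 := by
    field_simp
  rw [e2]
  nlinarith [sq_nonneg ((n : ℝ)), mul_nonneg (by linarith : (0 : ℝ) ≤ (n : ℝ) - 4) (by linarith : (0 : ℝ) ≤ (n : ℝ))]

theorem up {n : ℕ} (hn : 24 ≤ n) {H : Finset (Finset (Fin n))} (h4 : H ⊆ powersetCard 4 univ) (hK : CliqueFree H)
    {δ : ℝ} (hδ : (patterns H : ℝ) ≤ δ * (n : ℝ) ^ 6) :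
    (H.card : ℝ) / (n.choose 4 : ℝ) ≤ (11 / 16 + 720 * δ + 15 / n) / (1 - 12 / n) := by
  have h1 := edges (fun A hA => (mem_powersetCard.mp (h4 hA)).2) hK
  have h2 : (16 : ℝ) * (24 * (H.card : ℝ)) * (n : ℝ) ^ 2 ≤ 11 * (n : ℝ) ^ 6 + 16 * (720 * (patterns H : ℝ) + 15 * (n : ℝ) ^ 5) := by
    exact_mod_cast h1
  have hn0 : (24 : ℝ) ≤ n := by exact_mod_cast hn
  have hpos : (0 : ℝ) < n := by linarith
  have h12 : (0 : ℝ) < 1 - 12 / n := by
    rw [sub_pos, div_lt_one hpos]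
    linarith
  have hc : (0 : ℝ) < (n.choose 4 : ℝ) := by exact_mod_cast Nat.choose_pos (by omega)
  rw [div_le_div_iff₀ hc h12]
  have h3 := ch4 (n := n) (by omega)
  have h5 : 24 * (H.card : ℝ) ≤ (11 / 16 + 720 * δ + 15 / n) * (n : ℝ) ^ 4 := by
    have h6 : (24 * (H.card : ℝ)) * (n : ℝ) ^ 2 ≤ ((11 / 16 + 720 * δ + 15 / n) * (n : ℝ) ^ 4) * (n : ℝ) ^ 2 := by
      have e : ((11 / 16 + 720 * δ + 15 / n) * (n : ℝ) ^ 4) * (n : ℝ) ^ 2 = 11 / 16 * (n : ℝ) ^ 6 + 720 * (δ * (n : ℝ) ^ 6)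
          + 15 * (n : ℝ) ^ 5 := by
        field_simp
      rw [e]
      linarith
    exact le_of_mul_le_mul_right h6 (by positivity)
  have hco : 0 ≤ 11 / 16 + 720 * δ + 15 / n := by
    by_contra hneg
    rw [not_le] at hneg
    have : (11 / 16 + 720 * δ + 15 / n) * (n : ℝ) ^ 4 < 0 := mul_neg_of_neg_of_pos hneg (by positivity)
    have h0 : (0 : ℝ) ≤ 24 * (H.card : ℝ) := by positivity
    linarith
  have h7 : 24 * (H.card : ℝ) * (1 - 12 / n) ≤ (11 / 16 + 720 * δ + 15 / n) * ((n : ℝ) ^ 4 * (1 - 12 / n)) := by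
    have := mul_le_mul_of_nonneg_right h5 h12.le
    linarith
  have h8 := mul_le_mul_of_nonneg_left h3 hco
  linarith

/-- the limit for classes which contain the construction and have few patterns -/
theorem lim (P : (n : ℕ) → Finset (Finset (Fin n)) → Prop) (h1 : ∀ n A D, P n (gr A D))
    (h2 : ∀ n H, P n H → CliqueFree H) (δ : ℕ → ℝ) (hδ : Tendsto δ atTop (𝓝 0))
    (h3 : ∀ n H, P n H → (patterns H : ℝ) ≤ δ n * (n : ℝ) ^ 6) :
    Tendsto (fun n : ℕ => (largest P n : ℝ) / (n.choose 4 : ℝ)) atTop (𝓝 (11 / 16)) := by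
  have hup : ∀ n : ℕ, 24 ≤ n → (largest P n : ℝ) / (n.choose 4 : ℝ) ≤ (11 / 16 + 720 * δ n + 15 / n) / (1 - 12 / n) := by
    intro n hn
    have hne : {m : ℕ | ∃ H : Finset (Finset (Fin n)), H ⊆ powersetCard 4 univ ∧ P n H ∧ H.card = m}.Nonempty :=
      ⟨_, gr ∅ ∅, gr_sub _ _, h1 n ∅ ∅, rfl⟩
    obtain ⟨H, hH, hP, hm⟩ := Nat.sSup_mem hne (bdd P n)
    have hm' : H.card = largest P n := hm
    rw [← hm']
    exact up hn hH (h2 n H hP) (h3 n H hP)
  have hlo : ∀ ε : ℝ, 0 < ε → ∀ᶠ n : ℕ in atTop, 11 / 16 - ε ≤ (largest P n : ℝ) / (n.choose 4 : ℝ) := by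
    intro ε hε
    obtain ⟨N, hN⟩ := lower ε hε
    filter_upwards [eventually_ge_atTop N, eventually_ge_atTop 4] with n hn hn4
    obtain ⟨A, D, hb⟩ := hN n hn
    have hle : (gr A D).card ≤ largest P n := le_csSup (bdd P n) ⟨gr A D, gr_sub A D, h1 n A D, rfl⟩
    have hp4 : (0 : ℝ) < (n.choose 4 : ℝ) := by
      exact_mod_cast Nat.choose_pos hn4
    rw [le_div_iff₀ hp4]
    exact hb.trans (by exact_mod_cast hle)
  have hU : Tendsto (fun n : ℕ => (11 / 16 + 720 * δ n + 15 / (n : ℝ)) / (1 - 12 / (n : ℝ))) atTop (𝓝 (11 / 16)) := by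
    have a1 := tendsto_const_div_atTop_nhds_zero_nat (15 : ℝ)
    have a2 := tendsto_const_div_atTop_nhds_zero_nat (12 : ℝ)
    have a3 : Tendsto (fun n : ℕ => (11 / 16 + 720 * δ n + 15 / (n : ℝ))) atTop (𝓝 (11 / 16 + 720 * 0 + 0)) :=
      ((hδ.const_mul 720).const_add (11 / 16)).add a1
    have a4 : Tendsto (fun n : ℕ => (1 - 12 / (n : ℝ))) atTop (𝓝 (1 - 0)) := a2.const_sub 1
    have a5 := a3.div a4 (by norm_num)
    have e : ((11 : ℝ) / 16 + 720 * 0 + 0) / (1 - 0) = 11 / 16 := by norm_num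
    rw [e] at a5
    exact a5
  rw [Metric.tendsto_atTop] at hU ⊢
  intro ε hε
  obtain ⟨N1, hN1⟩ := hU ε hε
  obtain ⟨N2, hN2⟩ := eventually_atTop.1 (hlo (ε / 2) (by linarith))
  refine ⟨max 24 (max N1 N2), fun n hn => ?_⟩
  have a1 : 24 ≤ n := le_trans (le_max_left _ _) hn
  have a2 : N1 ≤ n := le_trans (le_trans (le_max_left _ _) (le_max_right _ _)) hn
  have a3 : N2 ≤ n := le_trans (le_trans (le_max_right _ _) (le_max_right _ _)) hn
  have b1 := hup n a1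
  have b2 := hN1 n a2
  have b3 := hN2 n a3
  rw [Real.dist_eq] at b2 ⊢
  rw [abs_lt] at b2 ⊢
  constructor
  · linarith
  · linarith [b2.2]

end

end Pool.Agent.J6H5.C26
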