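import Pool.Agent.J6H5.C26.Main
import Pool.Agent.N443.Core.Cls

/-! The excluded class on six vertices and its number of copies. -/

set_option autoImplicit false
set_option maxRecDepth 100000
open Finset Equiv

namespace Pool.Agent.J6H5.C26

noncomputable section

open Pool.Agent.Y435.T7 (bt bt_eq al st)
open Pool.Agent.N443 (st_eq al_true mkN mkN_add mkN_congr mkN_lt bt_mkN codeN act gv gv_act mkS mkS_mem bt_le)

/-- the pattern on six vertices: the sets of four elements of `{0, ..., 5}` which contain `0` and do not contain both of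
`1` and `2` -/
def Pat (Q : Finset (Fin 6)) : Prop := Q.card = 4 ∧ 0 ∈ Q ∧ ¬ (1 ∈ Q ∧ 2 ∈ Q)

instance : DecidablePred Pat := fun Q => by unfold Pat; infer_instance

/-- the codes of the class, with isomorphisms -/
def L26 : List (ℕ × (Fin 6 → Fin 6)) := [(367, ![4, 0, 5, 1, 2, 3]), (687, ![4, 1, 5, 0, 2, 3]), (995, ![4, 0, 1, 2, 3, 5]), (1231, ![4, 2, 5, 0, 1, 3]), (1509, ![4, 0, 2, 1, 3, 5]), (1766, ![4, 1, 2, 0, 3, 5]), (1807, ![4, 3, 5, 0, 1, 2]), (1897, ![4, 0, 3, 1, 2, 5]), (1962, ![4, 1, 3, 0, 2, 5]), (1996, ![4, 2, 3, 0, 1, 5]), (2167, ![3, 0, 5, 1, 2, 4]), (2363, ![2, 0, 5, 1, 3, 4]), (2397, ![1, 0, 5, 2, 3, 4]), (4279, ![3, 1, 5, 0, 2, 4]), (4667, ![2, 1, 5, 0, 3, 4]), (4766, ![0, 1, 5, 2, 3, 4]), (6371, ![3, 0, 1, 2, 4, 5]), (6947, ![2, 0, 1, 3, 4, 5]), (7136, ![5, 0, 1, 2, 3, 4]), (8407, ![3, 2, 5, 0, 1, 4]), (9309, ![1, 2, 5, 0, 3, 4]), (9374, ![0, 2, 5, 1, 3, 4]), (10469, ![3, 0, 2, 1, 4, 5]), (11589, ![1, 0, 2, 3, 4, 5]), (11744, ![5, 0, 2, 1,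 3, 4]), (12518, ![3, 1, 2, 0, 4, 5]), (13958, ![0, 1, 2, 3, 4, 5]), (14048, ![5, 1, 2, 0, 3, 4]), (14359, ![3, 4, 5, 0, 1, 2]), (14449, ![3, 0, 4, 1, 2, 5]), (14514, ![3, 1, 4, 0, 2, 5]), (14548, ![3, 2, 4, 0, 1, 5]), (17179, ![2, 3, 5, 0, 1, 4]), (17693, ![1, 3, 5, 0, 2, 4]), (17950, ![0, 3, 5, 1, 2, 4]), (19241, ![2, 0, 3, 1, 4, 5]), (19785, ![1, 0, 3, 2, 4, 5]), (20320, ![5, 0, 3, 1, 2, 4]), (21290, ![2, 1, 3, 0, 4, 5]), (22154, ![0, 1, 3, 2, 4, 5]), (22432, ![5, 1, 3, 0, 2, 4]), (22555, ![2, 4, 5, 0, 1, 3]), (22833, ![2, 0, 4, 1, 3, 5]), (23090, ![2, 1, 4, 0, 3, 5]), (23320, ![2, 3, 4, 0, 1, 5]), (25932, ![1, 2, 3, 0, 4, 5]), (26252, ![0, 2, 3, 1, 4, 5]), (26560, ![5, 2, 3, 0, 1, 4]), (26653, ![1, 4, 5, 0, 2, 3]), (26961, ![1, 0, 4, 2, 3, 5]), (27732, ![1, 2, 4, 0, 3, 5]), (27928, ![1, 3, 4, 0, 2, 5]), (28702, ![0, 4, 5, 1, 2, 3]), (29330, ![0, 1, 4, 2, 3, 5]), (29844, ![0, 2, 4, 1, 3, 5]), (30232, ![0, 3, 4, 1, 2, 5]), (31072, ![5, 0, 4, 1, 2, 3]), (31392,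 ![5, 1, 4, 0, 2, 3]), (31936, ![5, 2, 4, 0, 1, 3]), (32512, ![5, 3, 4, 0, 1, 2])]

def R15 : List (Finset (Fin 7)) := RM ++ RA

theorem L26_inj : ∀ p ∈ L26, Function.Injective p.2 := by decide +kernel

theorem L26_ok : ∀ p ∈ L26, ∀ Q ∈ powersetCard 4 (univ : Finset (Fin 6)), ∃ j, j < 15 ∧
    R15.getD j ∅ = Q.image (fun i => (p.2 i).castSucc) ∧ bt j p.1 = if Pat Q then 1 else 0 := by decide +kernel

theorem L26_all : mkS (L26.map Prod.fst) = B26 := by decide +kernel

theorem code15 (g : Finset (Fin 7) → ℕ) : codeN 15 R15 g = codeN 5 RM g + 32 * codeN 10 RA g := by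
  unfold codeN
  rw [show (15 : ℕ) = 5 + 10 from rfl, mkN_add]
  congr 1

theorem B26_spec {c : ℕ} (h : bt c B26 = 1) : ∃ p ∈ L26, p.1 = c := by
  rw [← L26_all, bt_eq] at h
  have h1 : (mkS (L26.map Prod.fst)).testBit c = true := by
    rw [Nat.testBit_eq_decide_div_mod_eq, decide_eq_true_eq]; exact h
  exact List.mem_map.mp (mkS_mem _ h1)

theorem bt15 {g : Finset (Fin 7) → ℕ} (hg : ∀ Q, g Q ≤ 1) {j : ℕ} (hj : j < 15) : bt j (codeN 15 R15 g) = g (R15.getD j ∅) :=
  bt_mkN hj fun _ => hg _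

theorem PP_spec {g : Finset (Fin 7) → ℕ} (hg : ∀ Q, g Q ≤ 1) (hm : codeN 5 RM g < 31) (h : X6 g = 1) :
    ∃ s : Fin 6 → Fin 6, Function.Injective s ∧ ∀ Q ∈ powersetCard 4 (univ : Finset (Fin 6)),
      g (Q.image (fun i => (s i).castSucc)) = if Pat Q then 1 else 0 := by
  unfold X6 at h
  rw [PP_eq hm (code_lt hg), ← code15] at h
  obtain ⟨p, hp, hc⟩ := B26_spec h
  refine ⟨p.2, L26_inj p hp, fun Q hQ => ?_⟩
  obtain ⟨j, hj, h1, h2⟩ := L26_ok p hp Q hQ
  rw [← h1, ← h2, hc, bt15 hg hj]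

theorem X6_le {g : Finset (Fin 7) → ℕ} (hg : ∀ Q, g Q ≤ 1) (hm : codeN 5 RM g < 31) : X6 g ≤ 1 := by
  unfold X6
  rw [PP_eq hm (code_lt hg)]
  exact bt_le _ _

variable {V : Type} [Fintype V] [DecidableEq V]

/-- the set `S` of six vertices induces the pattern -/
def Ind (H : Finset V → Prop) (S : Finset V) : Prop :=
  ∃ w : Fin 6 → V, Function.Injective w ∧ univ.image w = S ∧
    ∀ Q ∈ powersetCard 4 (univ : Finset (Fin 6)), (H (Q.image w) ↔ Pat Q)

omit [Fintype V] in
theorem X6_ind {H : Finset V → Prop} (h : Free H) (u : Fin 7 → V) (hi : Function.Injective (fun i : Fin 6 => u i.castSucc))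
    (hx : X6 (gv H u) = 1) : Ind H (univ.image (fun i : Fin 6 => u i.castSucc)) := by
  have hv := val_gv h u
  obtain ⟨s, h1, h2⟩ := PP_spec hv.1 (m_lt hv) hx
  refine ⟨fun i => u (s i).castSucc, fun i j hij => h1 (hi hij), ?_, fun Q hQ => ?_⟩
  · have hs : Function.Surjective s := Finite.injective_iff_surjective.mp h1
    ext x
    simp only [mem_image, mem_univ, true_and]
    constructor
    · rintro ⟨i, rfl⟩; exact ⟨s i, rfl⟩
    · rintro ⟨i, rfl⟩
      obtain ⟨j, rfl⟩ := hs i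
      exact ⟨j, rfl⟩
  · have h3 := h2 Q hQ
    unfold gv at h3
    rw [image_image] at h3
    have e : (u ∘ fun i => (s i).castSucc) = fun i => u (s i).castSucc := rfl
    rw [e] at h3
    by_cases hp : Pat Q
    · rw [if_pos hp] at h3
      by_contra hn
      by_cases hH : H (image (fun i => u (s i).castSucc) Q)
      · exact hn ⟨fun _ => hp, fun _ => hH⟩
      · rw [if_neg hH] at h3; omega
    · rw [if_neg hp] at h3
      by_cases hH : H (image (fun i => u (s i).castSucc) Q)
      · rw [if_pos hH] at h3; omega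
      · exact ⟨fun h => absurd h hH, fun h => absurd h hp⟩

open Classical in
/-- the sets which induce the pattern -/
def Cop (H : Finset V → Prop) : Finset (Finset V) := (powersetCard 6 univ).filter (Ind H)

omit [DecidableEq V] in
theorem sum76 {M : Type} [AddCommMonoid M] (F : (Fin 6 → V) → M) :
    ∑ u : Fin 7 → V, F (fun i : Fin 6 => u i.castSucc) = Fintype.card V • ∑ w : Fin 6 → V, F w := by
  let e : (Fin 7 → V) ≃ (Fin 6 → V) × V :=
    { toFun := fun u => (fun i => u i.castSucc, u (Fin.last 6))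
      invFun := fun p => Fin.snoc p.1 p.2
      left_inv := by intro u; exact Fin.snoc_init_self u
      right_inv := by
        rintro ⟨w, y⟩
        refine Prod.ext ?_ ?_
        · funext i
          exact Fin.snoc_castSucc (α := fun _ => V) y w i
        · exact Fin.snoc_last (α := fun _ => V) y w }
  rw [Fintype.sum_equiv e (fun u => F (fun i : Fin 6 => u i.castSucc)) (fun p => F p.1) fun u => rfl, Fintype.sum_prod_type]
  simp only [sum_const, card_univ]
  rw [← smul_sum]

/-- the number of injections with image in a family of sets of six elements -/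
theorem card_inj_le (G : Finset (Finset V)) (hG : ∀ A ∈ G, A.card = 6) :
    (univ.filter fun w : Fin 6 → V => Function.Injective w ∧ univ.image w ∈ G).card ≤ 720 * G.card := by
  classical
  have h1 : (univ.filter fun w : Fin 6 → V => Function.Injective w ∧ univ.image w ∈ G) ⊆
      G.biUnion fun A => univ.filter fun w : Fin 6 → V => Function.Injective w ∧ univ.image w = A := by
    intro w hw
    rw [mem_filter] at hw
    exact mem_biUnion.mpr ⟨_, hw.2.2, mem_filter.mpr ⟨mem_univ _, hw.2.1, rfl⟩⟩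
  refine (card_le_card h1).trans ((card_biUnion_le_card_mul _ _ 720 fun A hA => ?_).trans (le_of_eq (mul_comm _ _)))
  have h2 : Fintype.card {w : Fin 6 → V // Function.Injective w ∧ univ.image w = A} ≤ Fintype.card (Fin 6 ↪ A) := by
    have hm : ∀ w : {w : Fin 6 → V // Function.Injective w ∧ univ.image w = A}, ∀ i, w.1 i ∈ A := fun w i => by
      have := w.2.2
      have h3 : w.1 i ∈ univ.image w.1 := mem_image_of_mem _ (mem_univ _)
      rwa [this] at h3
    refine Fintype.card_le_of_injective (fun w => ⟨fun i => ⟨w.1 i, hm w i⟩, fun i j h => w.2.1 (congrArg Subtype.val h)⟩) ?_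
    intro w w' h
    refine Subtype.ext (funext fun i => ?_)
    have := congrArg (fun f : Fin 6 ↪ A => ((f i : A) : V)) h
    exact this
  rw [Fintype.card_embedding_eq, Fintype.card_coe, hG A hA, Fintype.card_fin, Fintype.card_subtype] at h2
  exact h2.trans (le_of_eq rfl)

theorem card_noninj6 : (univ.filter fun w : Fin 6 → V => ¬ Function.Injective w).card ≤ 15 * Fintype.card V ^ 5 := by
  classical
  have h1 : (univ.filter fun y : Fin 6 → V => Function.Injective y).card = (Fintype.card V).descFactorial 6 := by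
    rw [← Fintype.card_subtype, Fintype.card_congr (Equiv.subtypeInjectiveEquivEmbedding (Fin 6) V),
      Fintype.card_embedding_eq, Fintype.card_fin]
  have h2 := card_filter_add_card_filter_not (s := (univ : Finset (Fin 6 → V))) (fun y => Function.Injective y)
  rw [card_univ, Fintype.card_fun, Fintype.card_fin, h1] at h2
  have h3 : Fintype.card V ^ 6 ≤ (Fintype.card V).descFactorial 6 + 15 * Fintype.card V ^ 5 := by
    generalize Fintype.card V = n
    by_cases hn : n < 5
    · have : n ^ 6 ≤ 15 * n ^ 5 := by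
        rw [pow_succ, mul_comm]
        exact Nat.mul_le_mul_right _ (by omega)
      omega
    · obtain ⟨k, rfl⟩ : ∃ k, n = k + 5 := ⟨n - 5, by omega⟩
      have e : (k + 5).descFactorial 6 = k * ((k + 1) * ((k + 2) * ((k + 3) * ((k + 4) * (k + 5))))) := by
        simp only [Nat.descFactorial_succ, Nat.descFactorial_zero, mul_one, Nat.sub_zero]
        have a1 : k + 5 - 5 = k := by omega
        have a2 : k + 5 - 4 = k + 1 := by omega
        have a3 : k + 5 - 3 = k + 2 := by omega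
        have a4 : k + 5 - 2 = k + 3 := by omega
        have a5 : k + 5 - 1 = k + 4 := by omega
        rw [a1, a2, a3, a4, a5]
      rw [e]
      have e2 : k * ((k + 1) * ((k + 2) * ((k + 3) * ((k + 4) * (k + 5))))) + 15 * (k + 5) ^ 5 =
          (k + 5) ^ 6 + (85 * k ^ 4 + 1475 * k ^ 3 + 9649 * k ^ 2 + 28245 * k + 31250) := by ring
      omega
  omega

/-- the number of tuples of the excluded class -/
theorem X6_sum {H : Finset V → Prop} (h : Free H) :
    ∑ u : Fin 7 → V, X6 (gv H u) ≤ Fintype.card V * (720 * (Cop H).card + 15 * Fintype.card V ^ 5) := by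
  classical
  set F : (Fin 6 → V) → ℕ := fun w =>
      (if Function.Injective w ∧ univ.image w ∈ Cop H then 1 else 0) + (if ¬ Function.Injective w then 1 else 0) with hF
  have h1 : ∀ u : Fin 7 → V, X6 (gv H u) ≤ F (fun i : Fin 6 => u i.castSucc) := by
    intro u
    have hv := val_gv h u
    have hle := X6_le hv.1 (m_lt hv)
    show X6 (gv H u) ≤ (if Function.Injective (fun i : Fin 6 => u i.castSucc) ∧ univ.image (fun i : Fin 6 => u i.castSucc) ∈ Cop H
      then 1 else 0) + (if ¬ Function.Injective (fun i : Fin 6 => u i.castSucc) then 1 else 0)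
    by_cases hi : Function.Injective (fun i : Fin 6 => u i.castSucc)
    · rcases Nat.le_one_iff_eq_zero_or_eq_one.mp hle with hx | hx
      · rw [hx]; exact Nat.zero_le _
      · have h2 := X6_ind h u hi hx
        have h3 : univ.image (fun i : Fin 6 => u i.castSucc) ∈ Cop H := by
          unfold Cop
          rw [mem_filter, mem_powersetCard]
          exact ⟨⟨subset_univ _, by rw [card_image_of_injective _ hi, card_univ, Fintype.card_fin]⟩, h2⟩
        rw [if_pos ⟨hi, h3⟩, hx]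
        exact Nat.le_add_right _ _
    · rw [if_pos hi]
      exact hle.trans (Nat.le_add_left _ _)
  refine (sum_le_sum fun u _ => h1 u).trans ?_
  rw [sum76 F, smul_eq_mul, hF, sum_add_distrib, ← card_filter, ← card_filter]
  refine Nat.mul_le_mul_left _ (add_le_add ?_ card_noninj6)
  exact card_inj_le _ fun A hA => (mem_powersetCard.mp (mem_filter.mp hA).1).2

end

end Pool.Agent.J6H5.C26
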