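import Pool.Agent.J6H5.C26.Val

/-! The check of a code bounds the sum over all pairs. -/

set_option autoImplicit false
set_option maxRecDepth 100000
set_option exponentiation.threshold 3000000
open Finset Equiv

namespace Pool.Agent.J6H5.C26

noncomputable section

open Pool.Agent.Y435.T7 (bt sb st cnd al d2 enc fld enc_congr enc_zero enc_add fld_lt fld_enc enc_fld enc_inj sb_lt bt01)
open Pool.Agent.N443 (st_eq al_true cnd_and enc_const_succ mkN mkN_congr mkN_lt codeN act Cl Kp Inv7 Psi Psi_list okS3 okS3_spec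
  tot3 tot3_enc fl3 wfG phi3 phi3_lt pcd Stp pr act_act encLand enc_eq_zero ltLand bt_le wf3)

theorem Bv_le (fl c : ℕ) {i : ℕ} (hi : i < 2 ^ 16) : Bv fl c i ≤ (if fl = 0 then DM else 2 * DM) := by
  have hi' : i < 65536 := hi
  have hb := bt_le 0 c
  have hx : xi i < 64 := by unfold xi; omega
  have hy : yi i < 64 := by unfold yi; omega
  unfold Bv
  have h1 : F5 (i / 4096 + 16 * bt 0 c) (xi i + 64 * (c / 2 % 16)) (yi i + 64 * (c / 32 % 16)) ≤ DM :=
    F5_le (by omega) (by omega) (by omega)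
  have h2 : F5 (c / 2 % 16 + 16 * bt 0 c) (c / 512 % 64 + 64 * (c / 32 % 16)) (xi i + 64 * (i / 4096)) ≤ DM :=
    F5_le (by omega) (by omega) (by omega)
  split_ifs <;> omega

theorem Bv_lt (fl c : ℕ) {i : ℕ} (hi : i < 2 ^ 16) : Bv fl c i < 2 ^ 40 := by
  have h := Bv_le fl c hi
  have h2 : 2 * DM < 2 ^ 40 := by unfold DM; norm_num
  split_ifs at h <;> omega

theorem Bv_le2 (fl c i : ℕ) (hi : i < 2 ^ 16) : Bv fl c i ≤ 2 * DM := by
  have h := Bv_le fl c hi
  split_ifs at h <;> omega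

/-- the value of a code and a link -/
def SV (c i : ℕ) : ℕ := ((fl3 GS).map fun s => Bv s.1 (pcd s.2.1 c) (phi3 s.2.2 i)).sum

theorem GS_wf : wfG 16 20 3 GS = true := by decide +kernel

theorem tot_eq (c : ℕ) : tot3 b16 GS c = enc 40 20 (SV c) :=
  tot3_enc (k := 3) (M := 2 * DM) b16_eq Bv_le2 (by unfold DM; norm_num) (by norm_num) GS GS_wf c

theorem SV_le (c : ℕ) {i : ℕ} (hi : i < 2 ^ 20) : SV c i ≤ 21 * DM := by
  unfold SV
  rw [← SP_fst, List.map_map]
  have h1 : (SP.map ((fun s => Bv s.1 (pcd s.2.1 c) (phi3 s.2.2 i)) ∘ Prod.fst)).sum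
      ≤ (SP.map fun x => if x.1.1 = 0 then DM else 2 * DM).sum :=
    List.sum_le_sum fun x hx => Bv_le _ _ (phi3_lt _ (okS3_spec (SP_ok x hx) (g := fun _ => 0) (fun _ => by norm_num)).1 hi)
  refine h1.trans (le_of_eq ?_)
  decide +kernel

theorem dd_eq (x : ℕ) : dd x = enc 40 20 (fun _ => x) := by
  unfold dd
  have h : ∀ n, d2 (40 * 2 ^ n) (enc 40 n (fun _ => x)) = enc 40 (n + 1) (fun _ => x) := fun n => (enc_const_succ 40 n x).symm
  have h0 : d2 40 x = enc 40 1 (fun _ => x) := by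
    have := h 0
    rw [enc_zero] at this
    exact this
  rw [h0, show 80 = 40 * 2 ^ 1 from rfl, h, show 160 = 40 * 2 ^ 2 from rfl, h, show 320 = 40 * 2 ^ 3 from rfl, h,
    show 640 = 40 * 2 ^ 4 from rfl, h, show 1280 = 40 * 2 ^ 5 from rfl, h,
    show 2560 = 40 * 2 ^ 6 from rfl, h, show 5120 = 40 * 2 ^ 7 from rfl, h, show 10240 = 40 * 2 ^ 8 from rfl, h,
    show 20480 = 40 * 2 ^ 9 from rfl, h, show 40960 = 40 * 2 ^ 10 from rfl, h, show 81920 = 40 * 2 ^ 11 from rfl, h,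
    show 163840 = 40 * 2 ^ 12 from rfl, h, show 327680 = 40 * 2 ^ 13 from rfl, h, show 655360 = 40 * 2 ^ 14 from rfl, h,
    show 1310720 = 40 * 2 ^ 15 from rfl, h, show 2621440 = 40 * 2 ^ 16 from rfl, h, show 5242880 = 40 * 2 ^ 17 from rfl, h,
    show 10485760 = 40 * 2 ^ 18 from rfl, h, show 20971520 = 40 * 2 ^ 19 from rfl, h]

theorem chk_spec {c : ℕ} (h : chk c = true) {i : ℕ} (hi : i < 2 ^ 20) : SV c i ≤ cC := by
  unfold chk at h
  rw [tot_eq, dd_eq, dd_eq] at h
  have h1 := Nat.eq_of_beq_eq_true h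
  have e1 : Nat.add (enc 40 20 (SV c)) (enc 40 20 (fun _ => Nat.sub 274877906943 cC)) =
      enc 40 20 (fun i => SV c i + Nat.sub 274877906943 cC) := enc_add _ _ _ _
  have hc : Nat.sub 274877906943 cC + 21 * DM < 2 ^ 40 := by unfold DM cC; norm_num
  have hlt : ∀ i < 2 ^ 20, (fun i => SV c i + Nat.sub 274877906943 cC) i < 2 ^ 40 := fun i hi => by
    have := SV_le c hi
    show SV c i + Nat.sub 274877906943 cC < 2 ^ 40
    omega
  have hk : ∀ i < 2 ^ 20, (fun _ : ℕ => 824633720832) i < 2 ^ 40 := fun i _ => by norm_num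
  rw [e1, encLand (by norm_num) hlt hk] at h1
  have h2 := enc_eq_zero (by norm_num) (fun i hi => lt_of_le_of_lt (Nat.and_le_left (n := SV c i + Nat.sub 274877906943 cC)) (hlt i hi)) h1 hi
  have h3 := ltLand (x := SV c i + Nat.sub 274877906943 cC) (w := 38) (hlt i hi) (by norm_num) h2
  have e2 : Nat.sub 274877906943 cC = 274877906943 - cC := rfl
  have hcC : cC < 274877906943 := by unfold cC; norm_num
  rw [e2] at h3
  norm_num at h3
  omega

theorem SV_Psi {g : Finset (Fin 7) → ℕ} (hg : Val g) : SV (codeN 15 CQ g) (codeN 20 LF g) = Psi GG g := by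
  rw [Psi_list inv7 PL PL_nodup PL_len hg]
  unfold SV PL
  rw [← SP_fst, List.map_map, List.map_flatMap]
  have key : ∀ L : List (Stp × Perm (Fin 7)), (∀ x ∈ L, okS3 16 20 15 CQ LT LF x.1 x.2 = true) →
      (L.map ((fun s => Bv s.1 (pcd s.2.1 (codeN 15 CQ g)) (phi3 s.2.2 (codeN 20 LF g))) ∘ Prod.fst)).sum
      = (L.flatMap fun a => (if a.1.1 = 0 then [a.2 * al0] else [a.2 * al0, a.2]).map fun σ => GG (act σ g)).sum := by
    intro L
    induction L with
    | nil => intro _; rfl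
    | cons x L ih =>
      intro hL
      rw [List.map_cons, List.sum_cons, List.flatMap_cons, List.sum_append, ih fun y hy => hL y (List.mem_cons_of_mem _ hy)]
      congr 1
      obtain ⟨-, h2, h3⟩ := okS3_spec (hL x List.mem_cons_self) hg.1
      show Bv x.1.1 (pcd x.1.2.1 (codeN 15 CQ g)) (phi3 x.1.2.2 (codeN 20 LF g)) = _
      rw [h2, h3, Bv_eq (Val_cl g hg x.2).1, act_act]
      split_ifs <;> simp
  exact key SP SP_ok

theorem Psi_le {g : Finset (Fin 7) → ℕ} (hg : Val g) (h : chk (codeN 15 CQ g) = true) : Psi GG g ≤ cC := by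
  rw [← SV_Psi hg]
  exact chk_spec h (mkN_lt fun _ => hg.1 _)

end

end Pool.Agent.J6H5.C26
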