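import Pool.Agent.J6H5.C26.Inv

/-! Admissible set functions and the invariance of the value. -/

set_option autoImplicit false
set_option maxRecDepth 100000
open Finset Equiv

namespace Pool.Agent.J6H5.C26

noncomputable section

open Pool.Agent.Y435.T7 (bt sb st cnd al fld sb_lt)
open Pool.Agent.N443 (st_eq al_true cnd_and mkN mkN_congr mkN_lt bt_mkN sb_mkN sx codeN act Cl Kp Inv7)

/-- set functions of hypergraphs without a complete set of five -/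
def Val (g : Finset (Fin 7) → ℕ) : Prop :=
  (∀ Q, g Q ≤ 1) ∧ ∀ P : Finset (Fin 7), P.card = 5 → ∃ Q ∈ powersetCard 4 P, g Q = 0

theorem Val_cl : Cl Val := by
  rintro g ⟨h1, h2⟩ σ
  refine ⟨fun Q => h1 _, fun P hP => ?_⟩
  obtain ⟨Q, hQ, h0⟩ := h2 (P.image σ) (by rw [card_image_of_injective _ σ.injective, hP])
  rw [mem_powersetCard] at hQ
  refine ⟨Q.image σ.symm, ?_, ?_⟩
  · rw [mem_powersetCard]
    refine ⟨?_, by rw [card_image_of_injective _ σ.symm.injective, hQ.2]⟩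
    intro x hx
    obtain ⟨y, hy, rfl⟩ := mem_image.mp hx
    obtain ⟨z, hz, rfl⟩ := mem_image.mp (hQ.1 hy)
    rwa [Equiv.symm_apply_apply]
  · unfold act
    rw [image_image]
    simpa using h0

theorem code_perm {n : ℕ} {L : List (Finset (Fin 7))} {τ : Perm (Fin 7)} {π : ℕ → ℕ} (L' : List (Finset (Fin 7)))
    (h : ∀ j < n, (L.getD j ∅).image τ = L'.getD (π j) ∅) (g : Finset (Fin 7) → ℕ) :
    codeN n L (act τ g) = mkN n (fun j => g (L'.getD (π j) ∅)) :=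
  mkN_congr fun j hj => by rw [← h j hj]; rfl

theorem code_lt {n : ℕ} {L : List (Finset (Fin 7))} {g : Finset (Fin 7) → ℕ} (hg : ∀ Q, g Q ≤ 1) : codeN n L g < 2 ^ n :=
  mkN_lt fun _ => hg _

theorem RM_s0 {g : Finset (Fin 7) → ℕ} (hg : ∀ Q, g Q ≤ 1) : codeN 5 RM (act (swap 0 1) g) = sb 0 (0 + 1) (codeN 5 RM g) := by
  rw [code_perm (π := sx 0 1) RM (by decide +kernel) g]
  exact (sb_mkN (n := 5) (p := 0) (q := 0 + 1) (b := fun j => g (RM.getD j ∅)) (by norm_num) (by norm_num) fun j => hg _).symm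
theorem RA_s0 {g : Finset (Fin 7) → ℕ} (hg : ∀ Q, g Q ≤ 1) : codeN 10 RA (act (swap 0 1) g) = pf0 (codeN 10 RA g) := by
  rw [code_perm (π := fun j => sx 6 7 (sx 3 4 (sx 1 2 j))) RA (by decide +kernel) g]
  unfold pf0 codeN
  rw [sb_mkN (by norm_num) (by norm_num) fun j => hg _, sb_mkN (by norm_num) (by norm_num) fun j => hg _,
    sb_mkN (by norm_num) (by norm_num) fun j => hg _]
theorem RB_s0 {g : Finset (Fin 7) → ℕ} (hg : ∀ Q, g Q ≤ 1) : codeN 10 RB (act (swap 0 1) g) = pf0 (codeN 10 RB g) := by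
  rw [code_perm (π := fun j => sx 6 7 (sx 3 4 (sx 1 2 j))) RB (by decide +kernel) g]
  unfold pf0 codeN
  rw [sb_mkN (by norm_num) (by norm_num) fun j => hg _, sb_mkN (by norm_num) (by norm_num) fun j => hg _,
    sb_mkN (by norm_num) (by norm_num) fun j => hg _]
theorem RM_s1 {g : Finset (Fin 7) → ℕ} (hg : ∀ Q, g Q ≤ 1) : codeN 5 RM (act (swap 1 2) g) = sb 1 (1 + 1) (codeN 5 RM g) := by
  rw [code_perm (π := sx 1 2) RM (by decide +kernel) g]
  exact (sb_mkN (n := 5) (p := 1) (q := 1 + 1) (b := fun j => g (RM.getD j ∅)) (by norm_num) (by norm_num) fun j => hg _).symm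
theorem RA_s1 {g : Finset (Fin 7) → ℕ} (hg : ∀ Q, g Q ≤ 1) : codeN 10 RA (act (swap 1 2) g) = pf1 (codeN 10 RA g) := by
  rw [code_perm (π := fun j => sx 7 8 (sx 4 5 (sx 0 1 j))) RA (by decide +kernel) g]
  unfold pf1 codeN
  rw [sb_mkN (by norm_num) (by norm_num) fun j => hg _, sb_mkN (by norm_num) (by norm_num) fun j => hg _,
    sb_mkN (by norm_num) (by norm_num) fun j => hg _]
theorem RB_s1 {g : Finset (Fin 7) → ℕ} (hg : ∀ Q, g Q ≤ 1) : codeN 10 RB (act (swap 1 2) g) = pf1 (codeN 10 RB g) := by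
  rw [code_perm (π := fun j => sx 7 8 (sx 4 5 (sx 0 1 j))) RB (by decide +kernel) g]
  unfold pf1 codeN
  rw [sb_mkN (by norm_num) (by norm_num) fun j => hg _, sb_mkN (by norm_num) (by norm_num) fun j => hg _,
    sb_mkN (by norm_num) (by norm_num) fun j => hg _]
theorem RM_s2 {g : Finset (Fin 7) → ℕ} (hg : ∀ Q, g Q ≤ 1) : codeN 5 RM (act (swap 2 3) g) = sb 2 (2 + 1) (codeN 5 RM g) := by
  rw [code_perm (π := sx 2 3) RM (by decide +kernel) g]
  exact (sb_mkN (n := 5) (p := 2) (q := 2 + 1) (b := fun j => g (RM.getD j ∅)) (by norm_num) (by norm_num) fun j => hg _).symm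
theorem RA_s2 {g : Finset (Fin 7) → ℕ} (hg : ∀ Q, g Q ≤ 1) : codeN 10 RA (act (swap 2 3) g) = pf2 (codeN 10 RA g) := by
  rw [code_perm (π := fun j => sx 8 9 (sx 2 4 (sx 1 3 j))) RA (by decide +kernel) g]
  unfold pf2 codeN
  rw [sb_mkN (by norm_num) (by norm_num) fun j => hg _, sb_mkN (by norm_num) (by norm_num) fun j => hg _,
    sb_mkN (by norm_num) (by norm_num) fun j => hg _]
theorem RB_s2 {g : Finset (Fin 7) → ℕ} (hg : ∀ Q, g Q ≤ 1) : codeN 10 RB (act (swap 2 3) g) = pf2 (codeN 10 RB g) := by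
  rw [code_perm (π := fun j => sx 8 9 (sx 2 4 (sx 1 3 j))) RB (by decide +kernel) g]
  unfold pf2 codeN
  rw [sb_mkN (by norm_num) (by norm_num) fun j => hg _, sb_mkN (by norm_num) (by norm_num) fun j => hg _,
    sb_mkN (by norm_num) (by norm_num) fun j => hg _]
theorem RM_s3 {g : Finset (Fin 7) → ℕ} (hg : ∀ Q, g Q ≤ 1) : codeN 5 RM (act (swap 3 4) g) = sb 3 (3 + 1) (codeN 5 RM g) := by
  rw [code_perm (π := sx 3 4) RM (by decide +kernel) g]
  exact (sb_mkN (n := 5) (p := 3) (q := 3 + 1) (b := fun j => g (RM.getD j ∅)) (by norm_num) (by norm_num) fun j => hg _).symm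
theorem RA_s3 {g : Finset (Fin 7) → ℕ} (hg : ∀ Q, g Q ≤ 1) : codeN 10 RA (act (swap 3 4) g) = pf3 (codeN 10 RA g) := by
  rw [code_perm (π := fun j => sx 5 8 (sx 4 7 (sx 3 6 j))) RA (by decide +kernel) g]
  unfold pf3 codeN
  rw [sb_mkN (by norm_num) (by norm_num) fun j => hg _, sb_mkN (by norm_num) (by norm_num) fun j => hg _,
    sb_mkN (by norm_num) (by norm_num) fun j => hg _]
theorem RB_s3 {g : Finset (Fin 7) → ℕ} (hg : ∀ Q, g Q ≤ 1) : codeN 10 RB (act (swap 3 4) g) = pf3 (codeN 10 RB g) := by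
  rw [code_perm (π := fun j => sx 5 8 (sx 4 7 (sx 3 6 j))) RB (by decide +kernel) g]
  unfold pf3 codeN
  rw [sb_mkN (by norm_num) (by norm_num) fun j => hg _, sb_mkN (by norm_num) (by norm_num) fun j => hg _,
    sb_mkN (by norm_num) (by norm_num) fun j => hg _]

theorem RM_s5 (g : Finset (Fin 7) → ℕ) : codeN 5 RM (act (swap 5 6) g) = codeN 5 RM g :=
  code_perm (π := fun j => j) RM (by decide +kernel) g
theorem RA_s5 (g : Finset (Fin 7) → ℕ) : codeN 10 RA (act (swap 5 6) g) = codeN 10 RB g :=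
  code_perm (π := fun j => j) RB (by decide +kernel) g
theorem RB_s5 (g : Finset (Fin 7) → ℕ) : codeN 10 RB (act (swap 5 6) g) = codeN 10 RA g :=
  code_perm (π := fun j => j) RA (by decide +kernel) g

theorem no_all {g : Finset (Fin 7) → ℕ} (hg : Val g) (P : Finset (Fin 7)) (Q1 Q2 Q3 Q4 Q5 : Finset (Fin 7))
    (hP : P.card = 5) (hd : powersetCard 4 P = {Q1, Q2, Q3, Q4, Q5}) (h1 : g Q1 = 1) (h2 : g Q2 = 1) (h3 : g Q3 = 1)
    (h4 : g Q4 = 1) (h5 : g Q5 = 1) : False := by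
  obtain ⟨Q, hQ, h0⟩ := hg.2 P hP
  rw [hd] at hQ
  simp only [mem_insert, mem_singleton] at hQ
  rcases hQ with rfl | rfl | rfl | rfl | rfl <;> omega

theorem m_lt {g : Finset (Fin 7) → ℕ} (hg : Val g) : codeN 5 RM g < 31 := by
  have h1 : codeN 5 RM g < 32 := code_lt hg.1
  rcases Nat.lt_succ_iff_lt_or_eq.mp h1 with h | h
  · exact h
  · exfalso
    rw [RM_g] at h
    have a0 := hg.1 {1, 2, 3, 4}
    have a1 := hg.1 {0, 2, 3, 4}
    have a2 := hg.1 {0, 1, 3, 4}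
    have a3 := hg.1 {0, 1, 2, 4}
    have a4 := hg.1 {0, 1, 2, 3}
    exact no_all hg {0, 1, 2, 3, 4} {1, 2, 3, 4} {0, 2, 3, 4} {0, 1, 3, 4} {0, 1, 2, 4} {0, 1, 2, 3} (by decide) (by decide +kernel) (by omega) (by omega) (by omega) (by omega) (by omega)

theorem cnd_split {a b c : Bool} (h : cnd a b c = true) : (a = true ∧ b = true) ∨ (a = false ∧ c = true) := by
  cases a
  · exact Or.inr ⟨rfl, h⟩
  · exact Or.inl ⟨rfl, h⟩

theorem bad1_spec {m f i a b c d : ℕ} (h : bad1 m f i a b c d = true) :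
    bt i m = 1 ∧ bt a f = 1 ∧ bt b f = 1 ∧ bt c f = 1 ∧ bt d f = 1 := by
  obtain ⟨h1, h⟩ := cnd_and h
  obtain ⟨h2, h⟩ := cnd_and h
  obtain ⟨h3, h⟩ := cnd_and h
  obtain ⟨h4, h5⟩ := cnd_and h
  exact ⟨Nat.eq_of_beq_eq_true h1, Nat.eq_of_beq_eq_true h2, Nat.eq_of_beq_eq_true h3, Nat.eq_of_beq_eq_true h4,
    Nat.eq_of_beq_eq_true h5⟩

theorem nb_RA {g : Finset (Fin 7) → ℕ} (hg : Val g) : bad (codeN 5 RM g) (codeN 10 RA g) = false := by
  by_contra hne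
  rw [Bool.not_eq_false] at hne
  have bm : ∀ i < 5, bt i (codeN 5 RM g) = g (RM.getD i ∅) := fun i hi => bt_mkN hi fun j => hg.1 _
  have bf : ∀ i < 10, bt i (codeN 10 RA g) = g (RA.getD i ∅) := fun i hi => bt_mkN hi fun j => hg.1 _
  unfold bad at hne
  rcases cnd_split hne with ⟨h, -⟩ | ⟨-, hne⟩
  · obtain ⟨h1, h2, h3, h4, h5⟩ := bad1_spec h
    rw [bm 4 (by norm_num)] at h1
    rw [bf 6 (by norm_num)] at h2
    rw [bf 7 (by norm_num)] at h3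
    rw [bf 8 (by norm_num)] at h4
    rw [bf 9 (by norm_num)] at h5
    exact no_all hg {0, 1, 2, 3, 5} {0, 1, 2, 3} {1, 2, 3, 5} {0, 2, 3, 5} {0, 1, 3, 5} {0, 1, 2, 5} (by decide) (by decide +kernel) h1 h2 h3 h4 h5
  rcases cnd_split hne with ⟨h, -⟩ | ⟨-, hne⟩
  · obtain ⟨h1, h2, h3, h4, h5⟩ := bad1_spec h
    rw [bm 3 (by norm_num)] at h1
    rw [bf 3 (by norm_num)] at h2
    rw [bf 4 (by norm_num)] at h3
    rw [bf 5 (by norm_num)] at h4
    rw [bf 9 (by norm_num)] at h5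
    exact no_all hg {0, 1, 2, 4, 5} {0, 1, 2, 4} {1, 2, 4, 5} {0, 2, 4, 5} {0, 1, 4, 5} {0, 1, 2, 5} (by decide) (by decide +kernel) h1 h2 h3 h4 h5
  rcases cnd_split hne with ⟨h, -⟩ | ⟨-, hne⟩
  · obtain ⟨h1, h2, h3, h4, h5⟩ := bad1_spec h
    rw [bm 2 (by norm_num)] at h1
    rw [bf 1 (by norm_num)] at h2
    rw [bf 2 (by norm_num)] at h3
    rw [bf 5 (by norm_num)] at h4
    rw [bf 8 (by norm_num)] at h5
    exact no_all hg {0, 1, 3, 4, 5} {0, 1, 3, 4} {1, 3, 4, 5} {0, 3, 4, 5} {0, 1, 4, 5} {0, 1, 3, 5} (by decide) (by decide +kernel) h1 h2 h3 h4 h5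
  rcases cnd_split hne with ⟨h, -⟩ | ⟨-, hne⟩
  · obtain ⟨h1, h2, h3, h4, h5⟩ := bad1_spec h
    rw [bm 1 (by norm_num)] at h1
    rw [bf 0 (by norm_num)] at h2
    rw [bf 2 (by norm_num)] at h3
    rw [bf 4 (by norm_num)] at h4
    rw [bf 7 (by norm_num)] at h5
    exact no_all hg {0, 2, 3, 4, 5} {0, 2, 3, 4} {2, 3, 4, 5} {0, 3, 4, 5} {0, 2, 4, 5} {0, 2, 3, 5} (by decide) (by decide +kernel) h1 h2 h3 h4 h5
  rcases cnd_split hne with ⟨h, -⟩ | ⟨-, hne⟩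
  · obtain ⟨h1, h2, h3, h4, h5⟩ := bad1_spec h
    rw [bm 0 (by norm_num)] at h1
    rw [bf 0 (by norm_num)] at h2
    rw [bf 1 (by norm_num)] at h3
    rw [bf 3 (by norm_num)] at h4
    rw [bf 6 (by norm_num)] at h5
    exact no_all hg {1, 2, 3, 4, 5} {1, 2, 3, 4} {2, 3, 4, 5} {1, 3, 4, 5} {1, 2, 4, 5} {1, 2, 3, 5} (by decide) (by decide +kernel) h1 h2 h3 h4 h5
  have h31 := Nat.eq_of_beq_eq_true hne
  have := m_lt hg
  omega
theorem nb_RB {g : Finset (Fin 7) → ℕ} (hg : Val g) : bad (codeN 5 RM g) (codeN 10 RB g) = false := by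
  by_contra hne
  rw [Bool.not_eq_false] at hne
  have bm : ∀ i < 5, bt i (codeN 5 RM g) = g (RM.getD i ∅) := fun i hi => bt_mkN hi fun j => hg.1 _
  have bf : ∀ i < 10, bt i (codeN 10 RB g) = g (RB.getD i ∅) := fun i hi => bt_mkN hi fun j => hg.1 _
  unfold bad at hne
  rcases cnd_split hne with ⟨h, -⟩ | ⟨-, hne⟩
  · obtain ⟨h1, h2, h3, h4, h5⟩ := bad1_spec h
    rw [bm 4 (by norm_num)] at h1
    rw [bf 6 (by norm_num)] at h2
    rw [bf 7 (by norm_num)] at h3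
    rw [bf 8 (by norm_num)] at h4
    rw [bf 9 (by norm_num)] at h5
    exact no_all hg {0, 1, 2, 3, 6} {0, 1, 2, 3} {1, 2, 3, 6} {0, 2, 3, 6} {0, 1, 3, 6} {0, 1, 2, 6} (by decide) (by decide +kernel) h1 h2 h3 h4 h5
  rcases cnd_split hne with ⟨h, -⟩ | ⟨-, hne⟩
  · obtain ⟨h1, h2, h3, h4, h5⟩ := bad1_spec h
    rw [bm 3 (by norm_num)] at h1
    rw [bf 3 (by norm_num)] at h2
    rw [bf 4 (by norm_num)] at h3
    rw [bf 5 (by norm_num)] at h4
    rw [bf 9 (by norm_num)] at h5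
    exact no_all hg {0, 1, 2, 4, 6} {0, 1, 2, 4} {1, 2, 4, 6} {0, 2, 4, 6} {0, 1, 4, 6} {0, 1, 2, 6} (by decide) (by decide +kernel) h1 h2 h3 h4 h5
  rcases cnd_split hne with ⟨h, -⟩ | ⟨-, hne⟩
  · obtain ⟨h1, h2, h3, h4, h5⟩ := bad1_spec h
    rw [bm 2 (by norm_num)] at h1
    rw [bf 1 (by norm_num)] at h2
    rw [bf 2 (by norm_num)] at h3
    rw [bf 5 (by norm_num)] at h4
    rw [bf 8 (by norm_num)] at h5
    exact no_all hg {0, 1, 3, 4, 6} {0, 1, 3, 4} {1, 3, 4, 6} {0, 3, 4, 6} {0, 1, 4, 6} {0, 1, 3, 6} (by decide) (by decide +kernel) h1 h2 h3 h4 h5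
  rcases cnd_split hne with ⟨h, -⟩ | ⟨-, hne⟩
  · obtain ⟨h1, h2, h3, h4, h5⟩ := bad1_spec h
    rw [bm 1 (by norm_num)] at h1
    rw [bf 0 (by norm_num)] at h2
    rw [bf 2 (by norm_num)] at h3
    rw [bf 4 (by norm_num)] at h4
    rw [bf 7 (by norm_num)] at h5
    exact no_all hg {0, 2, 3, 4, 6} {0, 2, 3, 4} {2, 3, 4, 6} {0, 3, 4, 6} {0, 2, 4, 6} {0, 2, 3, 6} (by decide) (by decide +kernel) h1 h2 h3 h4 h5
  rcases cnd_split hne with ⟨h, -⟩ | ⟨-, hne⟩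
  · obtain ⟨h1, h2, h3, h4, h5⟩ := bad1_spec h
    rw [bm 0 (by norm_num)] at h1
    rw [bf 0 (by norm_num)] at h2
    rw [bf 1 (by norm_num)] at h3
    rw [bf 3 (by norm_num)] at h4
    rw [bf 6 (by norm_num)] at h5
    exact no_all hg {1, 2, 3, 4, 6} {1, 2, 3, 4} {2, 3, 4, 6} {1, 3, 4, 6} {1, 2, 4, 6} {1, 2, 3, 6} (by decide) (by decide +kernel) h1 h2 h3 h4 h5
  have h31 := Nat.eq_of_beq_eq_true hne
  have := m_lt hg
  omega

theorem VV_of {m f : ℕ} (hm : m < 32) (hf : f < 1024) (hb : bad m f = false) : VV m f = 1 := by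
  have h := al_true ckV_ok hm
  rw [st_eq] at h
  have h1 := al_true (al_true h (show f / 64 < 16 by omega)) (show f % 64 < 64 by omega)
  have e : Nat.add (f % 64) (Nat.mul 64 (f / 64)) = f := Nat.mod_add_div f 64
  rw [e, hb, cnd_f, kd_XB _ _ _ (show f % 64 < 64 by omega)] at h1
  exact Nat.eq_of_beq_eq_true h1

theorem VA {g : Finset (Fin 7) → ℕ} (hg : Val g) : VV (codeN 5 RM g) (codeN 10 RA g) = 1 :=
  VV_of (by have := m_lt hg; omega) (code_lt hg.1) (nb_RA hg)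
theorem VB {g : Finset (Fin 7) → ℕ} (hg : Val g) : VV (codeN 5 RM g) (codeN 10 RB g) = 1 :=
  VV_of (by have := m_lt hg; omega) (code_lt hg.1) (nb_RB hg)

theorem GG_s0 : Kp Val GG (swap 0 1) := by
  intro g hg
  have hg' := Val_cl g hg (swap 0 1)
  have m1 := m_lt hg
  have m2 := m_lt hg'
  have a1 := VA hg'
  have b1 := VB hg'
  rw [RM_s0 hg.1] at m2
  rw [RM_s0 hg.1, RA_s0 hg.1] at a1
  rw [RM_s0 hg.1, RB_s0 hg.1] at b1
  unfold GG
  rw [RM_s0 hg.1, RA_s0 hg.1, RB_s0 hg.1]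
  have hc := al_true ckI0 m1
  rw [st_eq] at hc
  exact F5_inv hc m1 m2 (fun f hf => pf0_lt hf) (fun X hX k hk => PT0_eq hX hk) (code_lt hg.1) (code_lt hg.1)
    (VA hg) (VB hg) a1 b1
theorem GG_s1 : Kp Val GG (swap 1 2) := by
  intro g hg
  have hg' := Val_cl g hg (swap 1 2)
  have m1 := m_lt hg
  have m2 := m_lt hg'
  have a1 := VA hg'
  have b1 := VB hg'
  rw [RM_s1 hg.1] at m2
  rw [RM_s1 hg.1, RA_s1 hg.1] at a1
  rw [RM_s1 hg.1, RB_s1 hg.1] at b1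
  unfold GG
  rw [RM_s1 hg.1, RA_s1 hg.1, RB_s1 hg.1]
  have hc := al_true ckI1 m1
  rw [st_eq] at hc
  exact F5_inv hc m1 m2 (fun f hf => pf1_lt hf) (fun X hX k hk => PT1_eq hX hk) (code_lt hg.1) (code_lt hg.1)
    (VA hg) (VB hg) a1 b1
theorem GG_s2 : Kp Val GG (swap 2 3) := by
  intro g hg
  have hg' := Val_cl g hg (swap 2 3)
  have m1 := m_lt hg
  have m2 := m_lt hg'
  have a1 := VA hg'
  have b1 := VB hg'
  rw [RM_s2 hg.1] at m2
  rw [RM_s2 hg.1, RA_s2 hg.1] at a1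
  rw [RM_s2 hg.1, RB_s2 hg.1] at b1
  unfold GG
  rw [RM_s2 hg.1, RA_s2 hg.1, RB_s2 hg.1]
  have hc := al_true ckI2 m1
  rw [st_eq] at hc
  exact F5_inv hc m1 m2 (fun f hf => pf2_lt hf) (fun X hX k hk => PT2_eq hX hk) (code_lt hg.1) (code_lt hg.1)
    (VA hg) (VB hg) a1 b1
theorem GG_s3 : Kp Val GG (swap 3 4) := by
  intro g hg
  have hg' := Val_cl g hg (swap 3 4)
  have m1 := m_lt hg
  have m2 := m_lt hg'
  have a1 := VA hg'
  have b1 := VB hg'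
  rw [RM_s3 hg.1] at m2
  rw [RM_s3 hg.1, RA_s3 hg.1] at a1
  rw [RM_s3 hg.1, RB_s3 hg.1] at b1
  unfold GG
  rw [RM_s3 hg.1, RA_s3 hg.1, RB_s3 hg.1]
  have hc := al_true ckI3 m1
  rw [st_eq] at hc
  exact F5_inv hc m1 m2 (fun f hf => pf3_lt hf) (fun X hX k hk => PT3_eq hX hk) (code_lt hg.1) (code_lt hg.1)
    (VA hg) (VB hg) a1 b1
theorem GG_s5 : Kp Val GG (swap 5 6) := by
  intro g _
  unfold GG
  rw [RM_s5, RA_s5, RB_s5, F5_comm]

theorem inv7 : Inv7 Val GG := ⟨Val_cl, GG_s0, GG_s1, GG_s2, GG_s3, GG_s5⟩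

end

end Pool.Agent.J6H5.C26
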